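import Pool.Agent.Q84.PH2

/-!
A polynomial hypergroup on `ℕ` with `h(2) = 15/8 < 2`.
-/

set_option autoImplicit false

open Finset Polynomial

namespace Pool.Agent.Results.MP_382e70_an.HaarWeightBelowTwo

/-- The polynomials `P₀ = 1`, `P₁ = (x - b₀)/a₀`, `P₁ Pₙ = aₙ Pₙ₊₁ + bₙ Pₙ + cₙ Pₙ₋₁` (`n ≥ 1`). -/
noncomputable def P (a b c : ℕ → ℝ) : ℕ → ℝ[X]
  | 0 => 1
  | 1 => C (a 0)⁻¹ * (X - C (b 0))
  | (n + 2) => C (a (n + 1))⁻¹ *
      ((C (a 0)⁻¹ * (X - C (b 0)) - C (b (n + 1))) * P a b c (n + 1) - C (c (n + 1)) * P a b c n)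

/-- The sequences of the recurrence formula: `aₙ > 0` and `bₙ ≥ 0` for all `n`, `c₀ = 0`,
`cₙ > 0` for `n ≥ 1`, `aₙ + bₙ + cₙ = 1` for all `n`. -/
structure Admissible (a b c : ℕ → ℝ) : Prop where
  a_pos : ∀ n, 0 < a n
  b_nonneg : ∀ n, 0 ≤ b n
  c_zero : c 0 = 0
  c_pos : ∀ n, 1 ≤ n → 0 < c n
  sum_one : ∀ n, a n + b n + c n = 1

/-- The linearization coefficients `g(m,n,k)`, `|m - n| ≤ k ≤ m + n`, are nonnegative. -/
def InducesHypergroup (a b c : ℕ → ℝ) : Prop :=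
  ∃ g : ℕ → ℕ → ℕ → ℝ, (∀ m n k, 0 ≤ g m n k) ∧ ∀ m n : ℕ, P a b c m * P a b c n =
    ∑ k ∈ Icc (max (m - n) (n - m)) (m + n), C (g m n k) * P a b c k

/-- The Haar weights `h(n) = (∏_{1 ≤ k ≤ n - 1} aₖ) / ∏_{1 ≤ k ≤ n} cₖ`. -/
noncomputable def haar (a c : ℕ → ℝ) (n : ℕ) : ℝ :=
  (∏ k ∈ Icc 1 (n - 1), a k) / ∏ k ∈ Icc 1 n, c k

open Pool.Agent.Q84.PH

theorem eval_P (x : ℝ) (n : ℕ) :
    (P (fun n => 1 - cc n) (fun _ => 0) cc n).eval x = p n x := by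
  have h0 : cc 0 = 0 := by simp [cc]
  induction n using Nat.twoStepInduction with
  | zero => simp [P, p_zero]
  | one => simp [P, p_one, cc]
  | more n ih0 ih1 =>
    rw [P, p_add_two, ← ih0, ← ih1]
    simp only [h0, map_zero, sub_zero, eval_mul, eval_C, eval_sub, eval_X, inv_one, map_one,
      one_mul]
    rw [div_eq_inv_mul]

theorem result : ∃ a b c : ℕ → ℝ, Admissible a b c ∧ InducesHypergroup a b c ∧
    ∃ n : ℕ, 2 ≤ n ∧ haar a c n < 2 := by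
  refine ⟨fun n => 1 - cc n, fun _ => 0, cc, ⟨fun n => by linarith [cc_lt n], fun _ => le_rfl,
    by simp [cc], cc_pos, fun n => by ring⟩, ?_, 2, le_rfl, ?_⟩
  · choose g hg h using lin
    refine ⟨g, hg, fun m n => ?_⟩
    refine Polynomial.funext fun x => ?_
    rw [eval_mul, eval_P, eval_P, h, eval_finsetSum]
    refine Finset.sum_congr rfl fun k _ => ?_
    rw [eval_mul, eval_C, eval_P]
  · rw [haar, show Icc 1 2 = {1, 2} from rfl, show Icc 1 (2 - 1) = {1} from rfl,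
      Finset.prod_insert (by norm_num), Finset.prod_singleton, Finset.prod_singleton, cc_one,
      cc_two]
    norm_num

end Pool.Agent.Results.MP_382e70_an.HaarWeightBelowTwo
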